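import Pool.Agent.Helper65.LG.Defs

/-! Project LG, package L1: the Poisson equation of a finite irreducible chain. -/

set_option autoImplicit false

open Finset Module

namespace Pool.Agent.Helper58.LG

open Pool.Agent.Helper65.LG

/-- The Poisson equation of a finite irreducible Markov chain. -/
theorem poisson {α : Type} (C : Finset α) (R : α → α → Prop) (P : α → α → ℝ) (ρ f : α → ℝ)
    (hne : C.Nonempty) (hP : ∀ B ∈ C, ∀ B' ∈ C, 0 ≤ P B B') (hR : ∀ B ∈ C, ∀ B', R B B' → 0 < P B B')
    (hcl : ∀ B ∈ C, ∀ B', R B B' → B' ∈ C)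
    (hirr : ∀ B ∈ C, ∀ B' ∈ C, Relation.ReflTransGen R B B')
    (hrow : ∀ B ∈ C, ∑ B' ∈ C, P B B' = 1) (hsum : ∑ B ∈ C, ρ B = 1)
    (hstat : ∀ B' ∈ C, ∑ B ∈ C, ρ B * P B B' = ρ B') :
    ∃ g : α → ℝ, ∀ B ∈ C, g B - ∑ B' ∈ C, P B B' * g B' = f B - ∑ B ∈ C, ρ B * f B := by
  classical
  -- the maximum principle
  have hmax : ∀ g : α → ℝ, (∀ B ∈ C, g B = ∑ B' ∈ C, P B B' * g B') →
      ∃ c, ∀ B ∈ C, g B = c := by
    intro g hg
    obtain ⟨B0, hB0, hm⟩ := C.exists_max_image g hne
    refine ⟨g B0, fun B hB => ?_⟩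
    have key : ∀ B', Relation.ReflTransGen R B0 B' → B' ∈ C ∧ g B' = g B0 := by
      intro B' h
      induction h with
      | refl => exact ⟨hB0, rfl⟩
      | @tail b c _ hbc ih =>
        obtain ⟨hb, hgb⟩ := ih
        have hc : c ∈ C := hcl b hb c hbc
        refine ⟨hc, ?_⟩
        have h0 : ∑ B' ∈ C, P b B' * (g B0 - g B') = 0 := by
          have : ∑ B' ∈ C, P b B' * (g B0 - g B') =
              (∑ B' ∈ C, P b B') * g B0 - ∑ B' ∈ C, P b B' * g B' := by
            rw [Finset.sum_mul, ← Finset.sum_sub_distrib]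
            exact Finset.sum_congr rfl fun x _ => by ring
          rw [this, hrow b hb, ← hg b hb, hgb]; ring
        have h1 := (Finset.sum_eq_zero_iff_of_nonneg (fun x hx =>
          mul_nonneg (hP b hb x hx) (sub_nonneg.2 (hm x hx)))).1 h0 c hc
        have h2 := hR b hb c hbc
        rcases mul_eq_zero.1 h1 with h3 | h3
        · exact absurd h3 h2.ne'
        · linarith
    exact (key B (hirr B0 hB0 B hB)).2
  -- the linear maps
  let L : ({x // x ∈ C} → ℝ) →ₗ[ℝ] ({x // x ∈ C} → ℝ) :=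
    { toFun := fun g B => g B - ∑ B' : {x // x ∈ C}, P B B' * g B'
      map_add' := by
        intro x y; funext B
        simp only [Pi.add_apply, mul_add, Finset.sum_add_distrib]; ring
      map_smul' := by
        intro c x; funext B
        simp only [Pi.smul_apply, smul_eq_mul, RingHom.id_apply, mul_sub, Finset.mul_sum]
        congr 1
        exact Finset.sum_congr rfl fun z _ => by ring }
  let φ : ({x // x ∈ C} → ℝ) →ₗ[ℝ] ℝ :=
    { toFun := fun g => ∑ B : {x // x ∈ C}, ρ B * g B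
      map_add' := by
        intro x y
        simp only [Pi.add_apply, mul_add, Finset.sum_add_distrib]
      map_smul' := by
        intro c x
        simp only [Pi.smul_apply, smul_eq_mul, RingHom.id_apply, Finset.mul_sum]
        exact Finset.sum_congr rfl fun z _ => by ring }
  have hker : LinearMap.ker L ≤ Submodule.span ℝ {(fun _ => 1 : {x // x ∈ C} → ℝ)} := by
    intro g hg
    rw [LinearMap.mem_ker] at hg
    let g' : α → ℝ := fun x => if h : x ∈ C then g ⟨x, h⟩ else 0
    have hg' : ∀ x : {x // x ∈ C}, g' x = g x := fun x => by simp [g']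
    obtain ⟨c, hc⟩ := hmax g' (fun B hB => by
      have h1 := congrFun hg ⟨B, hB⟩
      have h2 : g ⟨B, hB⟩ - ∑ B' : {x // x ∈ C}, P B B' * g B' = 0 := h1
      have h3 : ∑ B' ∈ C, P B B' * g' B' = ∑ B' : {x // x ∈ C}, P B B' * g B' := by
        rw [← Finset.sum_coe_sort]
        exact Finset.sum_congr rfl fun z _ => by rw [hg']
      rw [h3]
      have h4 : g' B = g ⟨B, hB⟩ := hg' ⟨B, hB⟩
      rw [h4]; linarith)
    rw [Submodule.mem_span_singleton]
    refine ⟨c, ?_⟩
    funext x
    have := hc x x.2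
    rw [hg'] at this
    simp [this]
  have h1 : finrank ℝ (LinearMap.ker L) ≤ 1 := by
    refine (Submodule.finrank_mono hker).trans ?_
    exact (finrank_span_le_card _).trans (by simp)
  have hle : LinearMap.range L ≤ LinearMap.ker φ := by
    rintro _ ⟨g, rfl⟩
    rw [LinearMap.mem_ker]
    show ∑ B : {x // x ∈ C}, ρ B * (g B - ∑ B' : {x // x ∈ C}, P B B' * g B') = 0
    simp only [mul_sub, Finset.sum_sub_distrib, Finset.mul_sum]
    rw [Finset.sum_comm, sub_eq_zero]
    refine Finset.sum_congr rfl fun B' _ => ?_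
    have h2 : ∑ x : {x // x ∈ C}, ρ x * (P x B' * g B') =
        (∑ x : {x // x ∈ C}, ρ x * P x B') * g B' := by
      rw [Finset.sum_mul]; exact Finset.sum_congr rfl fun z _ => by ring
    rw [h2]
    have h3 : ∑ x : {x // x ∈ C}, ρ x * P x B' = ρ B' := by
      rw [Finset.sum_coe_sort C (fun x => ρ x * P x B')]
      exact hstat B' B'.2
    rw [h3]
  have hφ1 : φ (fun _ => 1) = 1 := by
    show ∑ B : {x // x ∈ C}, ρ B * 1 = 1
    simp only [mul_one]
    rw [Finset.sum_coe_sort C ρ]; exact hsum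
  have hφs : LinearMap.range φ = ⊤ := by
    rw [LinearMap.range_eq_top]
    intro c
    exact ⟨c • (fun _ => 1), by rw [map_smul, hφ1]; simp⟩
  have h2 := LinearMap.finrank_range_add_finrank_ker L
  have h3 := LinearMap.finrank_range_add_finrank_ker φ
  rw [hφs, finrank_top, finrank_self] at h3
  have heq : LinearMap.range L = LinearMap.ker φ :=
    Submodule.eq_of_le_of_finrank_le hle (by omega)
  let f0 : {x // x ∈ C} → ℝ := fun x => f x - ∑ B ∈ C, ρ B * f B
  have hf : f0 ∈ LinearMap.ker φ := by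
    rw [LinearMap.mem_ker]
    show ∑ x : {x // x ∈ C}, ρ x * (f x - ∑ B ∈ C, ρ B * f B) = 0
    rw [Finset.sum_coe_sort C (fun x => ρ x * (f x - ∑ B ∈ C, ρ B * f B))]
    simp only [mul_sub, Finset.sum_sub_distrib]
    rw [← Finset.sum_mul, hsum]; ring
  rw [← heq] at hf
  obtain ⟨g, hg⟩ := hf
  refine ⟨fun x => if h : x ∈ C then g ⟨x, h⟩ else 0, fun B hB => ?_⟩
  have h5 := congrFun hg ⟨B, hB⟩
  have h6 : g ⟨B, hB⟩ - ∑ B' : {x // x ∈ C}, P B B' * g B' = f B - ∑ B ∈ C, ρ B * f B := h5
  rw [← h6]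
  simp only [hB, dite_true]
  congr 1
  rw [← Finset.sum_coe_sort]
  exact Finset.sum_congr rfl fun z _ => by simp

theorem pL1 (h2 : S_step2) : S_poisson := by
  intro G C ρ f hC hρ
  have hd : 0 < G.d := lt_of_lt_of_le (by norm_num) G.hd
  have hg : ∀ B, 0 < gg G B := fun B => Nat.gcd_pos_of_pos_right _ hd
  have hP0 : ∀ B B', 0 ≤ P G B B' := fun B B' => by
    unfold P; split_ifs <;> positivity
  exact poisson C (Succ G) (P G) ρ f hC.ne (fun B _ B' _ => hP0 B B')
    (fun B _ B' h => by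
      unfold P; rw [if_pos h]
      have := hg B
      positivity)
    hC.closed hC.irred
    (fun B hB => h2 G B (hC.state B hB).1 (hC.state B hB).2 C (fun B' h => hC.closed B hB B' h))
    hρ.sum hρ.stat

end Pool.Agent.Helper58.LG
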